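import Mathlib
import Pool.Agent.H.MP_51245c_nt.D

set_option autoImplicit false

namespace Pool.Agent.Hd44d

open Pool.Agent.H4489 Pool.Agent.H5124

def Lam (p q r : ℤ) : Prop := p % 2 = 1 ∧ q % 2 = 1 ∧ r % 2 = 1

def S4 (a b : ℤ) : Prop := ∃ p q r : ℤ, Lam p q r ∧ Nf a b p q r ≠ 0 ∧ |Nf a b p q r| ≤ 4

def L4 : List (ℤ × ℤ) := [(-4, 4), (-2, 2), (0, 2), (2, 4), (4, 6), (6, 10)]

def allOdd (B : ℕ) (f : ℤ → Bool) : Bool :=
  allN (2 * (B / 2) + 2) fun i => force (2 * (i : ℤ) - 2 * ((B / 2 : ℕ) : ℤ) - 1) f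

lemma allOdd_spec {B : ℕ} {f : ℤ → Bool} (h : allOdd B f = true) (x : ℤ) (hx : x % 2 = 1)
    (hB : |x| ≤ B) : f x = true := by
  have hB' := abs_le.mp hB
  have := allN_spec h ((x + 2 * ((B / 2 : ℕ) : ℤ) + 1) / 2).toNat (by omega)
  rw [force_eq] at this
  convert this using 2
  omega

def box (a b : ℤ) (B0 B1 B2 : ℕ) : Bool :=
  allOdd B0 fun r => allOdd B1 fun q => allOdd B2 fun x => force (x - a * q) fun p =>
    force (Nf a b p q r) fun v => Nat.beq v.natAbs 0 || Nat.ble 5 v.natAbs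

def pair (a b : ℤ) : Bool :=
  decide (b ≤ a) || force (Dl a b) fun D => decide (D ≤ 0) || decide ((a, b) ∈ L4) ||
    forceN (sq (16 * (b + 2) / D)) fun B0 => forceN (sq (16 * (b + 2) ^ 2 / D)) fun B1 =>
      forceN (sq (16 * (b + 2) ^ 3 / D)) fun B2 =>
        decide (4 * 4 * (b + 2) < (B0 : ℤ) ^ 2 * D) &&
          decide (4 * 4 * (b + 2) ^ 2 < (B1 : ℤ) ^ 2 * D) &&
          decide (4 * 4 * (b + 2) ^ 3 < (B2 : ℤ) ^ 2 * D) && box a b B0 B1 B2

def rows : Bool :=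
  allN 17 fun i => force (2 * (i : ℤ) - 16) fun a => allN 34 fun j => force (2 * (j : ℤ)) fun b =>
    pair a b

theorem rows_ok : rows = true := by decide +kernel

lemma Lam_T {a b : ℤ} (ha : a % 2 = 0) (hb : b % 2 = 0) (p q r : ℤ) (h : Lam p q r) :
    Lam (r - b * q) (p + a * q) q := by
  obtain ⟨a', rfl⟩ : ∃ a', a = 2 * a' := ⟨a / 2, by omega⟩
  obtain ⟨b', rfl⟩ : ∃ b', b = 2 * b' := ⟨b / 2, by omega⟩
  obtain ⟨h1, h2, h3⟩ := h
  rw [mul_assoc, mul_assoc]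
  refine ⟨by omega, by omega, h2⟩

lemma Lam_T' {a b : ℤ} (ha : a % 2 = 0) (hb : b % 2 = 0) (p q r : ℤ) (h : Lam p q r) :
    Lam (q - a * r) r (p + b * r) := by
  obtain ⟨a', rfl⟩ : ∃ a', a = 2 * a' := ⟨a / 2, by omega⟩
  obtain ⟨b', rfl⟩ : ∃ b', b = 2 * b' := ⟨b / 2, by omega⟩
  obtain ⟨h1, h2, h3⟩ := h
  rw [mul_assoc, mul_assoc]
  refine ⟨by omega, h3, by omega⟩

lemma thmA {a b : ℤ} {ρ s τ : ℝ} (h : Setup a b ρ s τ) (hab : a < b) (ha : a % 2 = 0)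
    (hb : b % 2 = 0) (hS : S4 a b) (hw : b ≤ 66 ∨ 4 * b - a ^ 2 ≠ 0) : (a, b) ∈ L4 := by
  obtain ⟨p, q, r, hΛ, h0, hN⟩ := hS
  have h1 := h.lt_one hab
  by_cases hb66 : b ≤ 66
  · have hw5 := h.w_lb h1
    have ha16 : |a| ≤ 16 := by
      rw [abs_le]; constructor <;> nlinarith
    have ha16' := abs_le.mp ha16
    have hb0 : -2 < b := by nlinarith [sq_nonneg a]
    have r1 := allN_spec rows_ok ((a + 16) / 2).toNat (by omega)
    rw [force_eq] at r1
    have r2 := allN_spec r1 (b / 2).toNat (by omega)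
    rw [force_eq] at r2
    have ea : 2 * ((((a + 16) / 2).toNat : ℕ) : ℤ) - 16 = a := by omega
    have eb : 2 * (((b / 2).toNat : ℕ) : ℤ) = b := by omega
    rw [ea, eb] at r2
    have hD := h.Dl_pos
    simp only [pair, force_eq, forceN_eq, Bool.or_eq_true, Bool.and_eq_true,
      decide_eq_true_eq] at r2
    rcases r2 with r2 | (r2 | r2) | ⟨⟨⟨c0, c1⟩, c2⟩, hbox⟩
    · omega
    · omega
    · exact r2
    · exfalso
      obtain ⟨p', q', r', hΛ', hN', b0, b1, b2⟩ := h.search h1 Lam (Lam_T ha hb) (Lam_T' ha hb)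
        p q r 4 _ _ _ hΛ h0 hN (by positivity) (by positivity) (by positivity) c0 c1 c2
      have x1 := allOdd_spec hbox r' hΛ'.2.2 b0
      have x2 := allOdd_spec x1 q' hΛ'.2.1 b1
      have x3 := allOdd_spec x2 (p' + a * q') (Lam_T ha hb _ _ _ hΛ').2.1 b2
      rw [force_eq, force_eq, add_sub_cancel_right, hN'] at x3
      simp only [Bool.or_eq_true, Nat.beq_eq, Nat.ble_eq] at x3
      have := abs_le.mp hN
      omega
  · exfalso
    push Not at hb66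
    have hs := h.small h1 hb66
    have hw0 := h.w_nonneg hs
    have hw4 : 4 ≤ 4 * b - a ^ 2 := by
      obtain ⟨a', rfl⟩ : ∃ a', a = 2 * a' := ⟨a / 2, by omega⟩
      have e : (2 * a') ^ 2 = 4 * a' ^ 2 := by ring
      rw [e] at hw hw0 ⊢
      omega
    have hD := Dl_lb a b 4 hb66 (by norm_num) hw4
    obtain ⟨p', q', hΛ', -⟩ := h.outer hs Lam (Lam_T ha hb) (Lam_T' ha hb) p q r 4 hΛ h0 hN
      (by nlinarith)
    have := hΛ'.2.2
    omega

lemma thmB {a b : ℤ} {ρ s τ : ℝ} (h : Setup a b ρ s τ) (hab : a < b) (ha : a % 2 = 0)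
    (hb : b % 2 = 0) (hS : S4 a b) : (a, b) ∈ L4 := by
  by_cases hw : b ≤ 66 ∨ 4 * b - a ^ 2 ≠ 0
  · exact thmA h hab ha hb hS hw
  · exfalso
    push Not at hw
    obtain ⟨j, rfl⟩ : ∃ j, a = 2 * j := ⟨a / 2, by omega⟩
    have hbj : b = j ^ 2 := by nlinarith [hw.2]
    subst hbj
    have hj : j % 2 = 0 := by
      rcases Int.emod_two_eq_zero_or_one j with h2 | h2
      · exact h2
      · obtain ⟨i, rfl⟩ : ∃ i, j = 2 * i + 1 := ⟨j / 2, by omega⟩
        have e : (2 * i + 1) ^ 2 = 2 * (2 * i ^ 2 + 2 * i) + 1 := by ring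
        rw [e] at hb
        omega
    obtain ⟨η, s', τ', h'⟩ := h.par (h.lt_one hab)
    have hD := h'.Dl_pos
    have hj8 : j < -8 := by
      have e : Dl 0 (-j) = 27 - 4 * j ^ 3 := by unfold Dl; ring
      rw [e] at hD
      by_contra hc
      push Not at hc
      have : 8 < j := by nlinarith [hw.1]
      nlinarith [hw.1]
    have hS' : S4 0 (-j) := by
      obtain ⟨p, q, r, ⟨h1, h2, h3⟩, h0, hN⟩ := hS
      have e : Nf 0 (-j) (p + q * j) r (q - r * j) = Nf (2 * j) (j ^ 2) p q r := by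
        unfold Nf; ring
      obtain ⟨i, rfl⟩ : ∃ i, j = 2 * i := ⟨j / 2, by omega⟩
      refine ⟨p + q * (2 * i), r, q - r * (2 * i), ⟨?_, h3, ?_⟩, by rw [e]; exact h0,
        by rw [e]; exact hN⟩
      · rw [mul_left_comm]; omega
      · rw [mul_left_comm]; omega
    have := thmA h' (by omega) (by norm_num) (by omega) hS' (Or.inr (by omega))
    simp [L4] at this
    omega

lemma thmC {a b : ℤ} {ρ s τ : ℝ} (h : Setup a b ρ s τ) (hab : a ≠ b) (ha : a % 2 = 0)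
    (hb : b % 2 = 0) (hS : S4 a b) : (a, b) ∈ L4 ∨ (b, a) ∈ L4 := by
  rcases lt_or_gt_of_ne hab with h1 | h1
  · exact Or.inl (thmB h h1 ha hb hS)
  · refine Or.inr (thmB h.symm h1 hb ha ?_)
    obtain ⟨p, q, r, ⟨h1, h2, h3⟩, h0, hN⟩ := hS
    have e : Nf b a p r q = Nf a b p q r := by unfold Nf; ring
    exact ⟨p, r, q, ⟨h1, h3, h2⟩, by rw [e]; exact h0, by rw [e]; exact hN⟩

end Pool.Agent.Hd44d
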